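import Pool.Agent.Y956.CP.Mob

/-!
# Elliott's conjecture with one Liouville (Moebius) factor at a displaced point and arbitrary bounded
multiplicative functions along a dilated tuple
-/

set_option autoImplicit false

namespace Pool.Agent.Results.MP_0c9a68_nt.DilatedTuples

open Finset

/-- the Liouville function -/
def lam (n : ℕ) : ℤ := (-1) ^ (ArithmeticFunction.cardFactors n)

/-- the Moebius function -/
def mob (n : ℕ) : ℤ := ArithmeticFunction.moebius n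

/-- multiplicative functions with values in the closed unit disc -/
def IsMult (g : ℕ → ℂ) : Prop :=
  (∀ n, ‖g n‖ ≤ 1) ∧ ∀ m n : ℕ, 1 ≤ m → 1 ≤ n → Nat.Coprime m n → g (m * n) = g m * g n

/-- extension by zero of a function of the positive integers to all integers -/
noncomputable def ext (g : ℕ → ℂ) (m : ℤ) : ℂ := if 0 < m then g m.toNat else 0

/-- the logarithmic average over the scales `Y < x ≤ W` -/
noncomputable def scales (φ : ℕ → ℝ) (Y W : ℕ) : ℝ :=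
  (1 / Real.log ((W : ℝ) / Y)) * ∑ x ∈ Ioc Y W, (1 / (x : ℝ)) * φ x

/-- the correlation over `n ≤ x` of the functions `g i` at the points `c * n + h * b i` and of the function
`F` at the displaced point `c * n + d` -/
noncomputable def corr {k : ℕ} (g : Fin k → ℕ → ℂ) (F : ℕ → ℤ) (c : ℕ) (b : Fin k → ℤ) (h : ℕ) (d : ℤ)
    (x : ℕ) : ℂ :=
  (1 / (x : ℂ)) * ∑ n ∈ Icc 1 x,
    ext (fun m => (F m : ℂ)) (c * n + d) * ∏ i, ext (g i) (c * n + h * b i)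

open Classical in
/-- the exceptional pairs `(h, d)` for the scales between `Y` and `W` -/
noncomputable def exc {k : ℕ} (g : Fin k → ℕ → ℂ) (F : ℕ → ℤ) (c : ℕ) (b : Fin k → ℤ) (ε : ℝ)
    (S : Finset (ℕ × ℤ)) (Y W : ℕ) : Finset (ℕ × ℤ) :=
  S.filter (fun s => ε < scales (fun x => ‖corr g F c b s.1 s.2 x‖) Y W)

theorem result (k K : ℕ) (ε : ℝ) (hε : 0 < ε) : ∃ C : ℝ, ∃ H₀ : ℕ, ∀ c : ℕ, 1 ≤ c → c ≤ K →
    ∀ g : Fin k → ℕ → ℂ, (∀ i, IsMult (g i)) → ∀ F : ℕ → ℤ, (F = lam ∨ F = mob) → ∀ (b : Fin k → ℤ)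
    (S : Finset (ℕ × ℤ)), (∀ s ∈ S, 1 ≤ s.1) →
    (∀ s ∈ S, ∀ s' ∈ S, s ≠ s' → s.2 * (s'.1 : ℤ) ≠ s'.2 * (s.1 : ℤ)) →
    ∃ ω₀ : ℕ, ∀ Y W : ℕ, 1 ≤ Y → ω₀ * Y ≤ W →
      ∑ s ∈ exc g F c b ε S Y W, 1 / (s.1 : ℝ) ≤ C ∧
      ∀ H : ℕ, H₀ ≤ H → (((exc g F c b ε S Y W).filter (fun s => s.1 ≤ H)).card : ℝ) ≤ ε * H := by
  classical
  obtain ⟨C, _, H₀, _, h⟩ := Pool.Agent.Y956.CP.fin_rare Pool.Agent.Y956.CP.scaled k K 1 ε hε
  refine ⟨C, H₀, fun c hc hcK g hg F hF b S hS1 hS2 => ?_⟩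
  have hw : Pool.Agent.Y956.CP.LPQ (fun _ => 1) 1 (ε / 2) := Pool.Agent.Y956.CP.lpq_one (ε / 2) (by positivity)
  have hFmu : Pool.Agent.Y956.CB.Mu F ∧ Pool.Agent.TH823.MRS.ExpoSmall (fun n => ((F n : ℤ) : ℂ)) := by
    rcases hF with rfl | rfl
    · exact ⟨Pool.Agent.Y956.CB.mu_lam, Pool.Agent.Y956.CB.expo_lam⟩
    · exact ⟨Pool.Agent.Y956.CB.mu_mob, Pool.Agent.Y956.CB.expo_mob⟩
  have hF1 : ∀ n, ‖((F n : ℤ) : ℂ)‖ ≤ 1 := by
    intro n
    rcases hF with rfl | rfl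
    · unfold lam
      push_cast
      rw [norm_pow, norm_neg, norm_one, one_pow]
    · have := (Pool.Agent.Y956.CB.mult1_mob_pow 1).1 n
      simpa [mob] using this
  obtain ⟨ω₀, h1⟩ := h c hc hcK _ hw g hg F hFmu.1 hFmu.2 (Pool.Agent.Y956.CP.exz (fun m => (F m : ℂ)))
    (fun i => Pool.Agent.Y956.CP.exz (g i)) (Pool.Agent.Y956.CP.exz_ext hF1)
    (fun i => Pool.Agent.Y956.CP.exz_ext (hg i).1) 0 S ⟨hS1, hS2⟩ b
  refine ⟨ω₀, fun Y W hY hW => ?_⟩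
  have h2 := h1 Y W hY hW
  have e1 : ∀ s : ℕ × ℤ, (fun x => ‖Pool.Agent.Y956.CP.wav (fun _ => 1) (Pool.Agent.Y956.CP.Ps
        (Pool.Agent.Y956.CP.exz (fun m => (F m : ℂ))) (fun i => Pool.Agent.Y956.CP.exz (g i))
        c 0 s.2 (fun j => b j * s.1)) x‖) = fun x => ‖corr g F c b s.1 s.2 x‖ := by
    intro s
    funext x
    congr 1
    unfold Pool.Agent.Y956.CP.wav Pool.Agent.Y956.CP.Ps corr ext Pool.Agent.Y956.CP.exz
    congr 1
    apply sum_congr rfl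
    intro n _
    simp only [add_zero, one_mul, mul_comm (b _) (s.1 : ℤ)]
  simp only [e1] at h2
  exact h2

end Pool.Agent.Results.MP_0c9a68_nt.DilatedTuples
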