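import Pool.Agent.Y885.KP6

/-!
# Elliott's conjecture for the factors `μ` and `λ` together with arbitrary further factors, up to very few elements of
arbitrary sets which meet every interval `[x, l x]`
-/

set_option autoImplicit false

namespace Pool.Agent.Results.MP_0c9a68_nt.ElementsOfAnySets

open Finset

/-- `F true` is the Liouville function, `F false` is the Möbius function. -/
def F (τ : Bool) (m : ℕ) : ℤ :=
  if τ then (-1) ^ ArithmeticFunction.cardFactors m else ArithmeticFunction.moebius m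

/-- For all `l ≥ 2`, `κ` and `U` there is a constant `C` such that for all `H` and `B` there is an `N₀` with the
following property. Let `N ≥ N₀` and `2 ^ s ≤ log ^ κ N`. Let `A 1, ..., A s` be arbitrary sets of integers each of
which contains an element of every interval `[x, l x]`, `x ≥ 1` (`C` and `N₀` do not depend on these sets), let
`0 ≤ h 1, ..., h s ≤ B N` be arbitrary integers, let each `g i`, `i = 1, ..., s`, be `μ` or `λ`, and let `G m`, where
`m` ranges over at most `log ^ κ N` indices, be arbitrary functions bounded by `1` (for example the products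
`G(n) = g' 1 (n + h' 1) ⋯ g' r (n + h' r)` of arbitrary bounded multiplicative functions with arbitrary shifts and
arbitrary `r`). Then there are sets `S i` of at most `C (log log N) ^ 2` elements of `A i`, all between `log ^ H N`
and `N / log ^ H N`, such that the sums `a i` of `h i` and of the elements of `S i` satisfy
`|∑ n ≤ X, G m (n) ∏ i ∈ I, g i (n + a i)| ≤ N / log ^ U N` for all `m`, all nonempty sets `I` of indices and all
`X ≤ B N`. -/
theorem result (l κ U : ℕ) (hl : 2 ≤ l) : ∃ C : ℝ, ∀ H B : ℕ, ∃ N₀ : ℕ, ∀ N : ℕ, N₀ ≤ N →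
    ∀ s : ℕ, (2 : ℝ) ^ s ≤ Real.log N ^ κ →
    ∀ A : Fin s → Set ℕ, (∀ i, ∀ x : ℕ, 1 ≤ x → ∃ a ∈ A i, x ≤ a ∧ a ≤ l * x) →
    ∀ h : Fin s → ℕ, (∀ i, h i ≤ B * N) → ∀ τ : Fin s → Bool,
    ∀ L : ℕ, (L : ℝ) ≤ Real.log N ^ κ → ∀ G : Fin L → ℕ → ℂ, (∀ m n, ‖G m n‖ ≤ 1) →
    ∃ S : Fin s → Finset ℕ, (∀ i, ∀ a ∈ S i, a ∈ A i ∧ Real.log N ^ H ≤ a ∧ (a : ℝ) ≤ N / Real.log N ^ H) ∧
      (∀ i, ((S i).card : ℝ) ≤ C * Real.log (Real.log N) ^ 2) ∧
      ∀ m, ∀ I : Finset (Fin s), I.Nonempty → ∀ X : ℕ, X ≤ B * N →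
        ‖∑ n ∈ Icc 1 X, G m n * ∏ i ∈ I, (F (τ i) (n + (h i + ∑ a ∈ S i, a)) : ℂ)‖ ≤ N / Real.log N ^ U := by
  obtain ⟨C, hC⟩ := Pool.Agent.Y885.las_kpt2 l 1 κ U hl le_rfl
    (fun τ => if τ then Pool.Agent.Y885.laR else Pool.Agent.H373R2.T7.muR) (by
      intro τ
      cases τ
      · exact Pool.Agent.Y885.fine_mu
      · exact Pool.Agent.Y885.fine_lam)
  refine ⟨C, fun H B => ?_⟩
  obtain ⟨N₀, h0⟩ := hC H B
  refine ⟨N₀ + 3, fun N hN s hs A hA h hh τ L hL G hG => ?_⟩
  have hLog1 : 1 ≤ Real.log (N : ℝ) := by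
    have h3 : (3 : ℝ) ≤ N := by exact_mod_cast (by omega : 3 ≤ N)
    rw [Real.le_log_iff_exp_le (by linarith)]
    exact (Real.exp_one_lt_d9.le.trans (by norm_num)).trans h3
  obtain ⟨S, h1, h2, _, h4⟩ := h0 s A hA N (by omega) hs h hh L hL τ (fun _ => 1) G (fun _ => le_rfl)
    (fun m n _ _ => (hG m n).trans (one_le_pow₀ hLog1))
  refine ⟨S, h1, h2, fun m I hI X hX => ?_⟩
  refine le_trans (le_of_eq ?_) (h4 m I hI X (fun i _ => by rw [one_mul]; exact hX))
  congr 1
  apply sum_congr rfl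
  intro n _
  congr 1
  apply prod_congr rfl
  intro i _
  rw [one_mul]
  unfold F
  cases τ i
  · simp only [Bool.false_eq_true, if_false]
    unfold Pool.Agent.H373R2.T7.muR
    push_cast
    rfl
  · simp only [if_true]
    unfold Pool.Agent.Y885.laR
    push_cast
    rfl

end Pool.Agent.Results.MP_0c9a68_nt.ElementsOfAnySets
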