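import Pool.Agent.Y326.Slw18

/-! Correlations of all orders of all bounded multiplicative functions with slow phases: unweighted averages at almost
all scales, averages over short intervals, logarithmic averages; the asymptotic independence of the correlation
sequences and of the phase. -/

set_option autoImplicit false

open Finset Filter Topology

namespace Pool.Agent.Results.MP_0c9a68_nt.SlowPhases

/-- `e(t) = exp (2πit)` -/
noncomputable def e (t : ℝ) : ℂ := Complex.exp (2 * Real.pi * Complex.I * t)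

/-- `∑_{n ≤ N} g(n)/n = o(log N)` -/
def LogZero (g : ℕ → ℂ) : Prop :=
  Tendsto (fun N : ℕ => (∑ n ∈ Icc 1 N, g n / (n : ℂ)) / ((Real.log N : ℝ) : ℂ)) atTop (𝓝 0)

/-- `B(x)` is small at almost all scales, uniformly in all long windows: for each `ε > 0` there is a `C` with
`∑_{A < x ≤ N} |B(x)|/x ≤ ε log(N/A)` for all `A ≥ 1` and `N ≥ C A`. -/
def Small (B : ℕ → ℂ) : Prop :=
  ∀ ε : ℝ, 0 < ε → ∃ C : ℕ, ∀ A N : ℕ, 1 ≤ A → C * A ≤ N →
    ∑ x ∈ Ioc A N, ‖B x‖ / x ≤ ε * Real.log ((N : ℝ) / A)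

/-- the averages `(1/x) ∑_{n ≤ x} g(n)` are small at almost all scales -/
def FullZero (g : ℕ → ℂ) : Prop := Small fun x => (∑ n ∈ Icc 1 x, g n) / (x : ℂ)

/-- the averages of `g` over `(x, x + h(x)]` are small for almost all `x`, at almost all scales -/
def ShortZero (h : ℕ → ℕ) (g : ℕ → ℂ) : Prop := Small fun x => (∑ n ∈ Ioc x (x + h x), g n) / (h x : ℂ)

/-- The lengths: `h` is monotone, `1 ≤ h(x) ≤ x` for `x ≥ 1` and `h(x) r(x) → ∞`. -/
def Lengths (h : ℕ → ℕ) (r : ℕ → ℝ) : Prop :=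
  Monotone h ∧ (∀ x, 1 ≤ x → 1 ≤ h x) ∧ (∀ x, h x ≤ x) ∧ Tendsto (fun x => (h x : ℝ) * r x) atTop atTop

/-- `φ` is slow, that is `φ((m+1)/p) - φ(m/p) → 0` as `m → ∞` for every prime `p`, and the
phases `φ(m/p)`, `p` in a finite set of primes, are jointly uniformly distributed modulo one for the logarithmic
averages (Weyl's criterion). -/
structure Phase (φ : ℝ → ℝ) : Prop where
  slow : ∀ p : ℕ, p.Prime → Tendsto (fun m : ℕ => φ (((m + 1 : ℕ) : ℝ) / p) - φ ((m : ℝ) / p)) atTop (𝓝 0)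
  weyl : ∀ P : Finset ℕ, (∀ p ∈ P, p.Prime) → ∀ κ : ℕ → ℤ, (∃ p ∈ P, κ p ≠ 0) →
    LogZero (fun m => e (∑ p ∈ P, κ p * φ ((m : ℝ) / p)))

/-- The function `f` is bounded by one, and `f(pn) = f(p) f(n)` for all large primes `p` and all `n` which are not
divisible by `p`. -/
def Mult (f : ℕ → ℂ) : Prop :=
  (∀ n, ‖f n‖ ≤ 1) ∧ ∃ P : ℕ, ∀ p : ℕ, p.Prime → P ≤ p → ∀ n, ¬ p ∣ n → f (p * n) = f p * f n

/-- The correlation sequences `n ↦ f₁(a₁n + b₁) ⋯ f_k(a_k n + b_k)`, for any number `k` of functions as in `Mult`,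
`a_j ≥ 1` and integers `b_j` (with `f_j(0)` for the negative arguments). -/
def Corr : Set (ℕ → ℂ) :=
  {g | ∃ (k : ℕ) (f : Fin k → ℕ → ℂ) (a : Fin k → ℕ) (b : Fin k → ℤ), (∀ j, Mult (f j)) ∧ (∀ j, 1 ≤ a j) ∧
    g = fun n : ℕ => ∏ j, f j (((a j : ℤ) * n + b j).toNat)}

open Classical in
/-- the indicator function of the set of the `x` for which `x - c` lies within `r` of an integer -/
noncomputable def arc (c r x : ℝ) : ℝ := if |x - c - round (x - c)| ≤ r then 1 else 0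

/-- The sequence `g` is asymptotically independent of the phase `φ` modulo one, for the averages which belong to `M`:
it is orthogonal to `e(lφ(n))`, `l ≠ 0`, and in its averages against a function of `φ(n)` modulo one (continuous, or
the indicator function of an arc) this function can be replaced by its integral. -/
def Independent (M : (ℕ → ℂ) → Prop) (g : ℕ → ℂ) (φ : ℝ → ℝ) : Prop :=
  (∀ l : ℤ, l ≠ 0 → M (fun n => g n * e (l * φ n))) ∧
  (∀ G : ℝ → ℂ, Continuous G → Function.Periodic G 1 → M (fun n => g n * (G (φ n) - ∫ x in (0 : ℝ)..1, G x))) ∧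
  (∀ c r : ℝ, 0 ≤ r → 2 * r ≤ 1 → M (fun n => g n * ((arc c r (φ n) - 2 * r : ℝ) : ℂ)))

/-- 1-bounded multiplicative functions, extended by `0` to the integers which are not positive -/
def BoundedMult (g : ℤ → ℂ) : Prop :=
  (∀ n, ‖g n‖ ≤ 1) ∧ (∀ n ≤ 0, g n = 0) ∧ ∀ m n : ℤ, 0 < m → 0 < n → IsCoprime m n → g (m * n) = g m * g n

theorem result :
    -- all the products of the problem are correlation sequences
    (∀ (k : ℕ) (g : Fin k → ℤ → ℂ) (h : Fin k → ℤ), (∀ j, BoundedMult (g j)) →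
      (fun n : ℕ => ∏ j, g j (n + h j)) ∈ Corr) ∧
    -- logarithmic averages, all orders
    (∀ φ : ℝ → ℝ, Phase φ → ∀ g ∈ Corr, Independent LogZero g φ) ∧
    -- the phases `α₀ (log x)^β₀ + ⋯ + α_m (log x)^β_m` with `β₀ > 1` larger than the other exponents; if `β₀ > 2`,
    -- then there are results for unweighted averages
    (∀ (m : ℕ) (α β : Fin (m + 1) → ℝ), 1 < β 0 → α 0 ≠ 0 → (∀ i, i ≠ 0 → β i < β 0) →
      Phase (fun x => ∑ i, α i * (Real.log x) ^ (β i)) ∧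
      (2 < β 0 → ∀ g ∈ Corr, Independent FullZero g (fun x => ∑ i, α i * (Real.log x) ^ (β i)) ∧
        ∀ h : ℕ → ℕ, Lengths h (fun x => (Real.log x) ^ (β 0 - 2) / x) →
          Independent (ShortZero h) g (fun x => ∑ i, α i * (Real.log x) ^ (β i)))) ∧
    -- the phases `α x^c`, `0 < c < 1`, for all rational and for all but countably many real `c`
    (∃ E : Set ℝ, E.Countable ∧ (∀ q : ℚ, (q : ℝ) ∉ E) ∧
      ∀ c : ℝ, 0 < c → c < 1 → c ∉ E → ∀ α : ℝ, α ≠ 0 →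
        Phase (fun x => α * x ^ c) ∧
        (∀ g ∈ Corr, Independent FullZero g (fun x => α * x ^ c) ∧
          ∀ h : ℕ → ℕ, Lengths h (fun x => (x : ℝ) ^ (c - 1)) → Independent (ShortZero h) g (fun x => α * x ^ c))) := by
  have hAP : ∀ φ : ℝ → ℝ, Phase φ → Pool.Agent.Y326.Slw.AP φ := fun φ h => ⟨h.slow, h.weyl⟩
  have hPh : ∀ φ : ℝ → ℝ, Pool.Agent.Y326.Slw.AP φ → Phase φ := fun φ h => ⟨h.slow, h.weyl⟩
  -- the correlation sequences
  have hC : ∀ g ∈ Corr, ∃ (k : ℕ) (f : Fin k → ℕ → ℂ) (a : Fin k → ℕ) (b : Fin k → ℤ) (P₀ : ℕ),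
      Pool.Agent.Y326.Slw.MF f a P₀ ∧ g = Pool.Agent.Y326.Slw.prd f a b := by
    rintro g ⟨k, f, a, b, hf, ha, rfl⟩
    choose hf1 P hP using hf
    refine ⟨k, f, a, b, ∑ j, P j, ?_, rfl⟩
    have hle : ∀ j, P j ≤ ∑ j, P j := fun j => single_le_sum (fun _ _ => Nat.zero_le _) (mem_univ j)
    exact ⟨hf1, fun j p n hp hpj hpn => hP j p hp ((hle j).trans hpj) n hpn, ha⟩
  have full : ∀ (φ : ℝ → ℝ) (r : ℕ → ℝ), Pool.Agent.Y326.Slw.RT φ r →
      Tendsto (fun n : ℕ => (n : ℝ) * r n) atTop atTop → ∀ g ∈ Corr, Independent FullZero g φ := by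
    intro φ r hr hlim g hg
    obtain ⟨k, f, a, b, P₀, hf, rfl⟩ := hC g hg
    have h := Pool.Agent.Y326.Slw.gg_full Pool.Agent.Y326.Slw.FW_tendsto hr hlim
    have e0 : ∀ u : ℕ → ℂ, Pool.Agent.Y326.Slw.Sm (Pool.Agent.Y326.Slw.av Pool.Agent.Y326.Slw.IF u) → FullZero u := by
      intro u hu
      have : Pool.Agent.Y326.Slw.av Pool.Agent.Y326.Slw.IF u = fun x => (∑ n ∈ Icc 1 x, u n) / (x : ℂ) := by
        funext x
        exact Pool.Agent.Y326.Slw.av_IF u x
      rw [this] at hu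
      exact hu
    exact ⟨fun l hl => e0 _ (h.sm_coeff hf l hl), fun G hG hp => e0 _ (h.sm_G hf G hG hp),
      fun c r hr hr2 => e0 _ (h.sm_arc hf c r hr hr2)⟩
  have short : ∀ (φ : ℝ → ℝ) (r : ℕ → ℝ), Pool.Agent.Y326.Slw.RT φ r → ∀ h : ℕ → ℕ, Lengths h r →
      ∀ g ∈ Corr, Independent (ShortZero h) g φ := by
    intro φ r hr h hh g hg
    obtain ⟨k, f, a, b, P₀, hf, rfl⟩ := hC g hg
    have h2 := Pool.Agent.Y326.Slw.gg_short Pool.Agent.Y326.Slw.FW_tendsto hr ⟨hh.1, hh.2.1, hh.2.2.1⟩ hh.2.2.2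
    have e0 : ∀ u : ℕ → ℂ, Pool.Agent.Y326.Slw.Sm (Pool.Agent.Y326.Slw.av (Pool.Agent.Y326.Slw.IS h) u) → ShortZero h u := by
      intro u hu
      have : Pool.Agent.Y326.Slw.av (Pool.Agent.Y326.Slw.IS h) u = fun x => (∑ n ∈ Ioc x (x + h x), u n) / (h x : ℂ) := by
        funext x
        rw [Pool.Agent.Y326.Slw.av_IS, Pool.Agent.Y326.Slw.CS_Ioc]
      rw [this] at hu
      exact hu
    exact ⟨fun l hl => e0 _ (h2.sm_coeff hf l hl), fun G hG hp => e0 _ (h2.sm_G hf G hG hp),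
      fun c r hr hr2 => e0 _ (h2.sm_arc hf c r hr hr2)⟩
  refine ⟨?_, ?_, ?_, ?_⟩
  · intro k g h hg
    refine ⟨k, fun j n => g j (n : ℤ), fun _ => 1, h, fun j => ⟨fun n => (hg j).1 _, 0, fun p hp _ n hn => ?_⟩,
      fun _ => le_rfl, ?_⟩
    · have hn0 : n ≠ 0 := by
        rintro rfl
        exact hn (dvd_zero p)
      have hco : Nat.Coprime p n := (Nat.Prime.coprime_iff_not_dvd hp).2 hn
      have h1 := (hg j).2.2 (p : ℤ) (n : ℤ) (by exact_mod_cast hp.pos) (by omega) (Nat.isCoprime_iff_coprime.2 hco)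
      simpa using h1
    · funext n
      refine prod_congr rfl fun j _ => ?_
      show g j (n + h j) = g j ((((((1 : ℕ) : ℤ) * n + h j).toNat : ℕ)) : ℤ)
      rcases le_total 0 ((n : ℤ) + h j) with h0 | h0
      · have : ((((1 : ℕ) : ℤ) * n + h j).toNat : ℤ) = n + h j := by
          rw [Nat.cast_one, one_mul, Int.toNat_of_nonneg h0]
        rw [this]
      · have : ((((1 : ℕ) : ℤ) * n + h j).toNat : ℤ) = 0 := by
          rw [Nat.cast_one, one_mul, Int.toNat_of_nonpos h0, Nat.cast_zero]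
        rw [this, (hg j).2.1 0 le_rfl, (hg j).2.1 _ h0]
  · intro φ hφ g hg
    obtain ⟨k, f, a, b, P₀, hf, rfl⟩ := hC g hg
    exact ⟨fun l hl => Pool.Agent.Y326.Slw.lz_coeff (hAP φ hφ) hf l hl,
      fun G hG hp => Pool.Agent.Y326.Slw.lz_G (hAP φ hφ) hf G hG hp,
      fun c r hr hr2 => Pool.Agent.Y326.Slw.lz_arc (hAP φ hφ) hf c r hr hr2⟩
  · intro m α β h1 hα ht
    refine ⟨hPh _ (Pool.Agent.Y326.Slw.ap_log α β 0 h1 hα ht), fun h2 g hg => ?_⟩
    have hr := Pool.Agent.Y326.Slw.rt_log α β 0 h2 hα ht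
    exact ⟨full _ _ hr (Pool.Agent.Y326.Slw.log_rate (by linarith)) g hg, fun h hh => short _ _ hr h hh g hg⟩
  · refine ⟨{c : ℝ | ¬ Pool.Agent.Y326.Slw.Ind c} ∩ Set.Ioo 0 1,
      Pool.Agent.Y326.Slw.ind_countable.mono Set.inter_subset_left, ?_, ?_⟩
    · rintro q ⟨h1, h2⟩
      apply h1
      apply Pool.Agent.Y326.Slw.ind_rat
      intro hden
      have h3 : (0 : ℚ) < q := by exact_mod_cast h2.1
      have h4 : q < 1 := by exact_mod_cast h2.2
      have h5 : q = q.num := (Rat.coe_int_num_of_den_eq_one hden).symm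
      rw [h5] at h3 h4
      have h6 : 0 < q.num := by exact_mod_cast h3
      have h7 : q.num < 1 := by exact_mod_cast h4
      omega
    · intro c h0 h1 hc α hα
      have hi : Pool.Agent.Y326.Slw.Ind c := by
        by_contra hni
        exact hc ⟨hni, h0, h1⟩
      have hr := Pool.Agent.Y326.Slw.rt_rpow c h0 h1 hi α hα
      exact ⟨hPh _ (Pool.Agent.Y326.Slw.ap_rpow c h0 h1 hi α hα), fun g hg =>
        ⟨full _ _ hr (Pool.Agent.Y326.Slw.pow_rate h0) g hg, fun h hh => short _ _ hr h hh g hg⟩⟩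

end Pool.Agent.Results.MP_0c9a68_nt.SlowPhases
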