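import Pool.Agent.Y958.E.Res
import Pool.Agent.Y681.E.Apx2

/-!
# Elliott's conjecture: a uniform gap when one factor pretends to be a twisted Liouville function and the
others are arbitrary
-/

set_option autoImplicit false

namespace Pool.Agent.Results.MP_0c9a68_nt.UniformGapLiouville

open Finset Filter Topology

/-- `1`-bounded multiplicative functions on the positive integers -/
def IsMult (g : ℕ → ℂ) : Prop :=
  (∀ n, ‖g n‖ ≤ 1) ∧ ∀ m n : ℕ, 1 ≤ m → 1 ≤ n → Nat.Coprime m n → g (m * n) = g m * g n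

/-- `λ(n) χ(n) n ^ (i t)` for the Liouville function `λ`, a Dirichlet character `χ` and a real `t` -/
noncomputable def twist {q : ℕ} (χ : DirichletCharacter ℂ q) (t : ℝ) (n : ℕ) : ℂ :=
  (-1) ^ ArithmeticFunction.cardFactors n * χ (n : ZMod q) *
    Complex.exp (((t * Real.log n : ℝ) : ℂ) * Complex.I)

/-- finite pretentious distance, over all the primes, from `λ(n) χ(n) n ^ (i t)` for some Dirichlet
character `χ` and some real `t` -/
def PretendsLiouville (g : ℕ → ℂ) : Prop :=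
  ∃ (q : ℕ) (χ : DirichletCharacter ℂ q) (t : ℝ), 1 ≤ q ∧ Summable (fun p : Nat.Primes =>
    (1 - (g p * (starRingEnd ℂ) (twist χ t p)).re) / ((p : ℕ) : ℝ))

open Classical in
/-- logarithmic density zero -/
def LogDensityZero (E : Set ℕ) : Prop := Tendsto
  (fun X : ℕ => (∑ N ∈ Icc 1 X, if N ∈ E then (1 : ℝ) / N else 0) / Real.log X) atTop (𝓝 0)

/-- Let `g j` pretend to be `λ(n) χ(n) n ^ (i t)`. Correlations of `k` arbitrary `1`-bounded multiplicative
functions, one of which is `g j`, along pairwise non-proportional linear forms are at most `(1 - c k)` times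
the trivial bound coming from `g j`, where `c k > 0` depends on `k` only: at all large scales outside a
set of logarithmic density zero, and for the logarithmic averages up to every large `N`. -/
theorem result : ∃ c : ℕ → ℝ, (∀ k, 0 < c k) ∧
    ∀ (k : ℕ) (a b : Fin k → ℕ), (∀ i, 1 ≤ a i) → (∀ i j, i ≠ j → a i * b j ≠ a j * b i) →
    ∀ g : Fin k → ℕ → ℂ, (∀ i, IsMult (g i)) → ∀ j, PretendsLiouville (g j) →
    ∃ 𝓔 : Set ℕ, LogDensityZero 𝓔 ∧ ∀ ε : ℝ, 0 < ε → ∃ N₀ : ℕ, ∀ N : ℕ, N₀ ≤ N →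
      (N ∉ 𝓔 → ‖∑ n ∈ Icc 1 N, ∏ i, g i (a i * n + b i)‖ ≤
        (1 - c k) * ∑ n ∈ Icc 1 N, ‖g j (a j * n + b j)‖ + ε * N) ∧
      ‖∑ n ∈ Icc 1 N, (∏ i, g i (a i * n + b i)) / n‖ ≤
        (1 - c k) * ∑ n ∈ Icc 1 N, ‖g j (a j * n + b j)‖ / n + ε * Real.log N := by
  obtain ⟨c, hc0, h⟩ := Pool.Agent.Y958.E.finE Pool.Agent.Y681.E.Apx2.apx2
  exact ⟨c, hc0, fun k a b ha hab g hg j hj => h k a b ha hab g hg j hj⟩

end Pool.Agent.Results.MP_0c9a68_nt.UniformGapLiouville
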